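import Pool.Agent.Work.MP_c20ce7_dm90.T5

set_option autoImplicit false

/-! Torsion, growth of the localisation, socles. -/

open MvPolynomial

noncomputable section

namespace Pool.DM

attribute [local instance] instAddCommGroupM instModuleMvPolynomialComplexM instModuleComplexLoc

variable {σ : Type} [Fintype σ] [DecidableEq σ] {L : Type} [AddCommGroup L] [Module ℂ L]

/-- `f^k u = 0` for some `k`. -/
theorem WMod.d_pow (W : WMod σ L) (i : σ) (f : MvPolynomial σ ℂ) (k : ℕ) (u : L) :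
    W.x (f ^ (k + 1)) (W.d (X i) u) =
      W.d (X i) (W.x (f ^ (k + 1)) u) - ((k : ℂ) + 1) • W.x (pderiv i f) (W.x (f ^ k) u) := by
  have h := LinearMap.congr_fun (W.d_mul_x i (f ^ (k + 1))) u
  rw [Module.End.mul_apply, LinearMap.add_apply, Module.End.mul_apply] at h
  rw [h, add_sub_assoc]
  have h1 : pderiv i (f ^ (k + 1)) = ((k : ℂ) + 1) • (pderiv i f * f ^ k) := by
    rw [Derivation.leibniz_pow, Nat.add_sub_cancel, smul_eq_mul, nsmul_eq_mul, smul_eq_C_mul]
    push_cast
    rw [map_add, map_natCast, map_one]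
    ring
  rw [h1, map_smul, LinearMap.smul_apply, map_mul, Module.End.mul_apply, sub_self, add_zero]

/-- The torsion subspace of `f` is stable. -/
def WMod.tors (W : WMod σ L) (f : MvPolynomial σ ℂ) : Submodule ℂ L where
  carrier := {u | ∃ k : ℕ, W.x (f ^ k) u = 0}
  zero_mem' := ⟨0, by simp⟩
  add_mem' := by
    rintro u v ⟨k, hk⟩ ⟨l, hl⟩
    refine ⟨k + l, ?_⟩
    rw [map_add, pow_add]
    nth_rewrite 1 [mul_comm]
    rw [map_mul, Module.End.mul_apply, hk, map_zero, map_mul, Module.End.mul_apply, hl,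
      map_zero, add_zero]
  smul_mem' := by
    rintro c u ⟨k, hk⟩
    exact ⟨k, by rw [map_smul, hk, smul_zero]⟩

theorem WMod.mem_tors (W : WMod σ L) (f : MvPolynomial σ ℂ) (u : L) :
    u ∈ W.tors f ↔ ∃ k : ℕ, W.x (f ^ k) u = 0 := Iff.rfl

theorem WMod.tors_stable (W : WMod σ L) (f : MvPolynomial σ ℂ) : W.Stable (W.tors f) := by
  rintro u ⟨k, hk⟩
  refine ⟨fun i => ⟨k, ?_⟩, fun i => ⟨k + 1, ?_⟩⟩
  · rw [← Module.End.mul_apply, ← map_mul, mul_comm, map_mul, Module.End.mul_apply, hk, map_zero]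
  · rw [W.d_pow, hk, map_zero, smul_zero, sub_zero, pow_succ', map_mul, Module.End.mul_apply,
      hk, map_zero, map_zero]

/-- On a simple module every function is locally nilpotent or injective. -/
theorem WMod.nilp_or_inj (W : WMod σ L) (hS : W.Simple) (f : MvPolynomial σ ℂ) :
    (∀ u, ∃ k : ℕ, W.x (f ^ k) u = 0) ∨ Function.Injective (W.x f) := by
  rcases hS.2.2 _ (W.tors_stable f) le_top with h | h
  · right
    rw [injective_iff_map_eq_zero]
    intro u hu
    have h1 : u ∈ W.tors f := ⟨1, by rwa [pow_one]⟩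
    rw [h] at h1
    exact (Submodule.mem_bot ℂ).1 h1
  · left
    intro u
    have h1 : u ∈ W.tors f := by rw [h]; trivial
    exact h1

theorem WMod.x_pow_inj (W : WMod σ L) {f : MvPolynomial σ ℂ}
    (hf : Function.Injective (W.x f)) (k : ℕ) : Function.Injective (W.x (f ^ k)) := by
  induction k with
  | zero => rw [pow_zero, map_one]; exact fun _ _ h => h
  | succ k ih =>
    rw [pow_succ, map_mul]
    exact ih.comp hf

/-- A localisation of `W` at `f`: the properties that are used. -/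
structure IsLoc {M : Type} [AddCommGroup M] [Module ℂ M] (W : WMod σ L)
    (f : MvPolynomial σ ℂ) (W' : WMod σ M) (ι : L →ₗ[ℂ] M) : Prop where
  hx : ∀ g u, ι (W.x g u) = W'.x g (ι u)
  hd : ∀ i u, ι (W.d (X i) u) = W'.d (X i) (ι u)
  ker : ∀ u, ι u = 0 ↔ ∃ k : ℕ, W.x (f ^ k) u = 0
  bij : Function.Bijective (W'.x f)
  frac : ∀ v, ∃ (k : ℕ) (u : L), W'.x (f ^ k) v = ι u

/-- Localisations exist. -/
theorem WMod.isLoc (W : WMod σ L) (f : MvPolynomial σ ℂ) :
    IsLoc W f (W.loc (Submonoid.powers f)) (W.ι (Submonoid.powers f)) where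
  hx := W.ι_x _
  hd := W.ι_d _
  ker := by
    intro u
    rw [W.ι_eq_zero]
    constructor
    · rintro ⟨_, ⟨k, rfl⟩, h⟩
      exact ⟨k, h⟩
    · rintro ⟨k, h⟩
      exact ⟨_, ⟨k, rfl⟩, h⟩
  bij := by
    have hf : f ∈ Submonoid.powers f := ⟨1, pow_one f⟩
    constructor
    · intro v w h
      exact W.loc_inj _ f hf h
    · intro v
      refine ⟨LocalizedModule.divBy (⟨f, hf⟩ : Submonoid.powers f) v, ?_⟩
      exact LocalizedModule.mul_by_divBy (M := W.M) (⟨f, hf⟩ : Submonoid.powers f) v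
  frac := by
    intro v
    obtain ⟨_, ⟨k, rfl⟩, m, hm⟩ := W.loc_frac _ v
    exact ⟨k, m, hm⟩

section

variable {M : Type} [AddCommGroup M] [Module ℂ M] {W : WMod σ L} {f : MvPolynomial σ ℂ}
  {W' : WMod σ M} {ι : L →ₗ[ℂ] M}

theorem IsLoc.nf (h : IsLoc W f W' ι) (p : MvPolynomial (σ ⊕ σ) ℂ) (u : L) :
    ι (W.nf p u) = W'.nf p (ι u) := by
  have hd : ∀ (g : MvPolynomial σ ℂ) (u : L), ι (W.d g u) = W'.d g (ι u) := by
    intro g
    induction g using MvPolynomial.induction_on with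
    | C a => intro u; rw [W.d_C, W'.d_C]; simp
    | add p q hp hq => intro u; rw [map_add, map_add, LinearMap.add_apply, LinearMap.add_apply,
        map_add, hp, hq]
    | mul_X p i hp => intro u; rw [map_mul, map_mul, Module.End.mul_apply, Module.End.mul_apply,
        hp, h.hd]
  induction p using sum_ind with
  | h0 f g =>
    rw [W.nf_mul, W'.nf_mul, Module.End.mul_apply, Module.End.mul_apply, h.hx, hd]
  | hadd p q hp hq => rw [map_add, map_add, LinearMap.add_apply, LinearMap.add_apply, map_add,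
      hp, hq]

theorem IsLoc.inj (h : IsLoc W f W' ι) (hf : Function.Injective (W.x f)) :
    Function.Injective ι := by
  rw [injective_iff_map_eq_zero]
  intro u hu
  obtain ⟨k, hk⟩ := (h.ker u).1 hu
  exact (W.x_pow_inj hf k) (by rw [hk, map_zero])

theorem IsLoc.frac' (h : IsLoc W f W' ι) (v : M) {k : ℕ} {u : L}
    (hv : W'.x (f ^ k) v = ι u) (l : ℕ) : W'.x (f ^ (l + k)) v = ι (W.x (f ^ l) u) := by
  rw [h.hx, ← hv, pow_add, map_mul, Module.End.mul_apply]

/-- The localisation has the growth type of the module. -/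
theorem IsLoc.growth (h : IsLoc W f W' ι) (hG : W.Growth) : W'.Growth := by
  obtain ⟨G, c, hG⟩ := hG
  set a := f.totalDegree with ha
  have hGx : ∀ (g : MvPolynomial σ ℂ) (l : ℕ), g.totalDegree ≤ l → ∀ k, ∀ u ∈ G k,
      W.x g u ∈ G (k + l) := by
    intro g l hl k u hu
    rw [← W.nf_x]
    refine W.nf_filt G hG.mono hG.hx hG.hd l _ ?_ k u hu
    exact (totalDegree_rename_le _ _).trans hl
  have hGf : ∀ j k, ∀ u ∈ G k, W.x (f ^ j) u ∈ G (k + j * a) := by
    intro j k u hu
    exact hGx _ _ ((totalDegree_pow _ _)) k u hu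
  let G' : ℕ → Submodule ℂ M := fun k => (Submodule.map ι (G ((a + 1) * k))).comap (W'.x (f ^ k))
  have hmem : ∀ k v, v ∈ G' k ↔ ∃ u ∈ G ((a + 1) * k), ι u = W'.x (f ^ k) v :=
    fun k v => Iff.rfl
  have hbij : ∀ k, Function.Injective (W'.x (f ^ k)) := fun k => W'.x_pow_inj h.bij.1 k
  refine ⟨G', c * ((a : ℝ) + 1) ^ Fintype.card σ, ⟨?_, ?_, ?_, ?_, ?_, ?_⟩⟩
  · refine monotone_nat_of_le_succ fun k v hv => ?_
    obtain ⟨u, hu, hu'⟩ := (hmem k v).1 hv
    refine (hmem _ v).2 ⟨W.x f u, ?_, ?_⟩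
    · have := hGx f a le_rfl _ u hu
      exact hG.mono (by ring_nf; omega) this
    · rw [h.hx, hu', pow_succ', map_mul, Module.End.mul_apply]
  · intro k
    have := hG.fin ((a + 1) * k)
    let e : G' k →ₗ[ℂ] Submodule.map ι (G ((a + 1) * k)) :=
      (W'.x (f ^ k)).restrict (p := G' k) (q := Submodule.map ι (G ((a + 1) * k)))
        (fun v hv => hv)
    refine Module.Finite.of_injective e ?_
    intro v w hvw
    exact Subtype.ext (hbij k (congrArg Subtype.val hvw))
  · intro k i v hv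
    obtain ⟨u, hu, hu'⟩ := (hmem k v).1 hv
    refine (hmem _ _).2 ⟨W.x (X i) (W.x f u), ?_, ?_⟩
    · have := hG.hx _ i _ (hGx f a le_rfl _ u hu)
      exact hG.mono (by ring_nf; omega) this
    · rw [h.hx, h.hx, hu', pow_succ', map_mul, Module.End.mul_apply]
      simp only [← Module.End.mul_apply, ← map_mul]
      congr 2
      ring
  · intro k i v hv
    obtain ⟨u, hu, hu'⟩ := (hmem k v).1 hv
    refine (hmem _ _).2 ⟨W.x f (W.d (X i) u) - (k : ℂ) • W.x (pderiv i f) u, ?_, ?_⟩
    · refine Submodule.sub_mem _ ?_ (Submodule.smul_mem _ _ ?_)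
      · have := hGx f a le_rfl _ _ (hG.hd _ i _ hu)
        exact hG.mono (by ring_nf; omega) this
      · have := hGx (pderiv i f) a (totalDegree_pderiv_le i f (by omega)) _ _ hu
        exact hG.mono (by ring_nf; omega) this
    · rw [map_sub, map_smul, h.hx, h.hx, h.hd, hu', W'.d_pow i f k v]
      have h1 := LinearMap.congr_fun (W'.d_mul_x i (f ^ (k + 1))) v
      have h2 := LinearMap.congr_fun (W'.d_mul_x i (f ^ k)) v
      rw [Module.End.mul_apply, LinearMap.add_apply, Module.End.mul_apply] at h1 h2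
      have h3 : W'.x f (W'.d (X i) (W'.x (f ^ k) v)) =
          W'.d (X i) (W'.x (f ^ (k + 1)) v) - W'.x (pderiv i f) (W'.x (f ^ k) v) := by
        have h4 := LinearMap.congr_fun (W'.d_mul_x i f) (W'.x (f ^ k) v)
        rw [Module.End.mul_apply, LinearMap.add_apply, Module.End.mul_apply] at h4
        rw [pow_succ', map_mul, Module.End.mul_apply, h4, add_sub_cancel_right]
      rw [h3, add_smul, one_smul]
      abel
  · intro v
    obtain ⟨k, u, hv⟩ := h.frac v
    obtain ⟨m, hm⟩ := hG.exh u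
    refine ⟨m + k, (hmem _ v).2 ⟨W.x (f ^ m) u, ?_, (h.frac' v hv m).symm⟩⟩
    have := hGf m m u hm
    refine hG.mono ?_ this
    nlinarith
  · intro k
    have := hG.fin ((a + 1) * k)
    let e : G' k →ₗ[ℂ] Submodule.map ι (G ((a + 1) * k)) :=
      (W'.x (f ^ k)).restrict (p := G' k) (q := Submodule.map ι (G ((a + 1) * k)))
        (fun v hv => hv)
    have h1 : Module.finrank ℂ (G' k) ≤ Module.finrank ℂ (Submodule.map ι (G ((a + 1) * k))) :=
      LinearMap.finrank_le_finrank_of_injective (f := e)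
        (fun v w hvw => Subtype.ext (hbij k (congrArg Subtype.val hvw)))
    have h2 : Module.finrank ℂ (Submodule.map ι (G ((a + 1) * k))) ≤
        Module.finrank ℂ (G ((a + 1) * k)) := Submodule.finrank_map_le ι _
    have h3 := hG.bound ((a + 1) * k)
    have hc : 0 ≤ c := by
      have h7 := (Nat.cast_nonneg (α := ℝ) _).trans (hG.bound 0)
      simpa using h7
    calc (Module.finrank ℂ (G' k) : ℝ) ≤ Module.finrank ℂ (G ((a + 1) * k)) := by
          exact_mod_cast h1.trans h2
      _ ≤ c * (((a + 1) * k : ℕ) + 1) ^ Fintype.card σ := h3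
      _ ≤ c * (((a : ℝ) + 1) * ((k : ℝ) + 1)) ^ Fintype.card σ := by
        refine mul_le_mul_of_nonneg_left (pow_le_pow_left₀ (by positivity) ?_ _) hc
        push_cast
        nlinarith [(Nat.cast_nonneg a : (0 : ℝ) ≤ a)]
      _ = _ := by rw [mul_pow]; ring

/-- If `L` is simple and `f` is injective, the image of `L` lies in every non-zero stable
subspace of the localisation. -/
theorem IsLoc.socle (h : IsLoc W f W' ι) (hS : W.Simple) (N : Submodule ℂ M)
    (hN : W'.Stable N) (hN0 : N ≠ ⊥) : LinearMap.range ι ≤ N := by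
  obtain ⟨v, hv, hv0⟩ := Submodule.exists_mem_ne_zero_of_ne_bot hN0
  obtain ⟨k, u, hu⟩ := h.frac v
  have h1 : ι u ∈ N := by
    rw [← hu]
    exact hN.xmem _ _ hv
  have h2 : ι u ≠ 0 := by
    rw [← hu]
    intro h3
    exact hv0 (W'.x_pow_inj h.bij.1 k (by rw [h3, map_zero]))
  have h3 : W.Stable (N.comap ι) := by
    intro w hw
    refine ⟨fun i => ?_, fun i => ?_⟩
    · rw [Submodule.mem_comap, h.hx]
      exact (hN _ hw).1 i
    · rw [Submodule.mem_comap, h.hd]
      exact (hN _ hw).2 i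
  rcases hS.2.2 _ h3 le_top with h4 | h4
  · exfalso
    have h5 : u ∈ N.comap ι := h1
    rw [h4, Submodule.mem_bot] at h5
    exact h2 (by rw [h5, map_zero])
  · rintro _ ⟨w, rfl⟩
    have h5 : w ∈ N.comap ι := by rw [h4]; trivial
    exact h5

/-- A non-zero stable subspace which is also stable under `1 / f` is everything. -/
theorem IsLoc.top_of (h : IsLoc W f W' ι) (hS : W.Simple) (N : Submodule ℂ M)
    (hN : W'.Stable N) (hN0 : N ≠ ⊥) (hf : ∀ v, W'.x f v ∈ N → v ∈ N) : N = ⊤ := by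
  have hf' : ∀ k v, W'.x (f ^ k) v ∈ N → v ∈ N := by
    intro k
    induction k with
    | zero => intro v hv; simpa using hv
    | succ k ih =>
      intro v hv
      rw [pow_succ', map_mul, Module.End.mul_apply] at hv
      exact ih v (hf _ hv)
  rw [eq_top_iff]
  intro v _
  obtain ⟨k, u, hu⟩ := h.frac v
  refine hf' k v ?_
  rw [hu]
  exact h.socle hS N hN hN0 ⟨u, rfl⟩

end

/-- The saturation of a stable subspace. -/
def WMod.sat (W : WMod σ L) (f : MvPolynomial σ ℂ) (N : Submodule ℂ L) (hN : W.Stable N) :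
    Submodule ℂ L where
  carrier := {u | ∃ k : ℕ, W.x (f ^ k) u ∈ N}
  zero_mem' := ⟨0, by simp⟩
  add_mem' := by
    rintro u v ⟨k, hk⟩ ⟨l, hl⟩
    refine ⟨k + l, ?_⟩
    rw [map_add]
    refine N.add_mem ?_ ?_
    · rw [pow_add, mul_comm, map_mul, Module.End.mul_apply]
      exact hN.xmem _ _ hk
    · rw [pow_add, map_mul, Module.End.mul_apply]
      exact hN.xmem _ _ hl
  smul_mem' := by
    rintro c u ⟨k, hk⟩
    exact ⟨k, by rw [map_smul]; exact N.smul_mem c hk⟩

theorem WMod.mem_sat (W : WMod σ L) (f : MvPolynomial σ ℂ) (N : Submodule ℂ L)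
    (hN : W.Stable N) (u : L) : u ∈ W.sat f N hN ↔ ∃ k : ℕ, W.x (f ^ k) u ∈ N := Iff.rfl

theorem WMod.le_sat (W : WMod σ L) (f : MvPolynomial σ ℂ) (N : Submodule ℂ L)
    (hN : W.Stable N) : N ≤ W.sat f N hN := fun u hu => ⟨0, by simpa using hu⟩

theorem WMod.sat_stable (W : WMod σ L) (f : MvPolynomial σ ℂ) (N : Submodule ℂ L)
    (hN : W.Stable N) : W.Stable (W.sat f N hN) := by
  rintro u ⟨k, hk⟩
  refine ⟨fun i => ⟨k, ?_⟩, fun i => ⟨k + 1, ?_⟩⟩
  · rw [← Module.End.mul_apply, ← map_mul, mul_comm, map_mul, Module.End.mul_apply]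
    exact hN.xmem _ _ hk
  · rw [W.d_pow]
    refine N.sub_mem ((hN _ ?_).2 i) (N.smul_mem _ (hN.xmem _ _ hk))
    rw [pow_succ', map_mul, Module.End.mul_apply]
    exact hN.xmem _ _ hk

theorem WMod.sat_closed (W : WMod σ L) (f : MvPolynomial σ ℂ) (N : Submodule ℂ L)
    (hN : W.Stable N) (v : L) (hv : W.x f v ∈ W.sat f N hN) : v ∈ W.sat f N hN := by
  obtain ⟨k, hk⟩ := hv
  refine ⟨k + 1, ?_⟩
  rw [pow_succ, map_mul, Module.End.mul_apply]
  exact hk

/-- `f` acts bijectively and there is no proper non-zero subspace which is stable under all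
operators and under `1 / f`. -/
structure WMod.LSimple (W : WMod σ L) (f : MvPolynomial σ ℂ) : Prop where
  bij : Function.Bijective (W.x f)
  nt : Nontrivial L
  top : ∀ N : Submodule ℂ L, W.Stable N → N ≠ ⊥ → (∀ v, W.x f v ∈ N → v ∈ N) → N = ⊤

/-- The localisation of a simple module at an injective function is simple in this sense. -/
theorem IsLoc.lsimple {M : Type} [AddCommGroup M] [Module ℂ M] {W : WMod σ L}
    {f : MvPolynomial σ ℂ} {W' : WMod σ M} {ι : L →ₗ[ℂ] M} (h : IsLoc W f W' ι)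
    (hS : W.Simple) (hf : Function.Injective (W.x f)) : W'.LSimple f where
  bij := h.bij
  nt := by
    have h1 : ∃ u : L, u ≠ 0 := by
      obtain ⟨u, -, hu⟩ := Submodule.exists_mem_ne_zero_of_ne_bot hS.2.1
      exact ⟨u, hu⟩
    obtain ⟨u, hu⟩ := h1
    exact ⟨ι u, 0, fun h2 => hu ((h.inj hf) (by rw [h2, map_zero]))⟩
  top := fun N hN hN0 hf => h.top_of hS N hN hN0 hf

theorem WMod.LSimple.exists_pow {W : WMod σ L} {f : MvPolynomial σ ℂ} (h : W.LSimple f)
    (N : Submodule ℂ L) (hN : W.Stable N) (hN0 : N ≠ ⊥) (v : L) :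
    ∃ k : ℕ, W.x (f ^ k) v ∈ N := by
  have h1 : W.sat f N hN = ⊤ := by
    refine h.top _ (W.sat_stable f N hN) ?_ (W.sat_closed f N hN)
    intro h2
    exact hN0 (eq_bot_iff.2 (h2 ▸ W.le_sat f N hN))
  have h2 : v ∈ W.sat f N hN := by rw [h1]; trivial
  exact h2

/-- Two non-zero stable subspaces of an `LSimple` module intersect. -/
theorem WMod.LSimple.inter {W : WMod σ L} {f : MvPolynomial σ ℂ} (h : W.LSimple f)
    (N N' : Submodule ℂ L) (hN : W.Stable N) (hN' : W.Stable N') (h0 : N ≠ ⊥) (h0' : N' ≠ ⊥) :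
    N ⊓ N' ≠ ⊥ := by
  obtain ⟨v, hv, hv0⟩ := Submodule.exists_mem_ne_zero_of_ne_bot h0'
  obtain ⟨k, hk⟩ := h.exists_pow N hN h0 v
  intro h1
  have h2 : W.x (f ^ k) v ∈ N ⊓ N' := ⟨hk, hN'.xmem _ _ hv⟩
  rw [h1, Submodule.mem_bot] at h2
  exact hv0 (W.x_pow_inj h.bij.1 k (by rw [h2, map_zero]))

/-- The simple submodule of an `LSimple` module of growth type is unique and contained in every
non-zero stable subspace. -/
theorem WMod.LSimple.le_of_simple {W : WMod σ L} {f : MvPolynomial σ ℂ} (h : W.LSimple f)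
    (S N : Submodule ℂ L) (hS : W.SimpleSub S) (hN : W.Stable N) (h0 : N ≠ ⊥) : S ≤ N := by
  have h1 := h.inter S N hS.1 hN hS.2.1 h0
  have h2 : W.Stable (S ⊓ N) := fun u hu =>
    ⟨fun i => ⟨(hS.1 u hu.1).1 i, (hN u hu.2).1 i⟩, fun i => ⟨(hS.1 u hu.1).2 i, (hN u hu.2).2 i⟩⟩
  rcases hS.2.2 _ h2 inf_le_left with h3 | h3
  · exact absurd h3 h1
  · exact inf_eq_left.1 h3

/-- Restriction to a non-zero stable subspace: the inclusion is a localisation. -/
theorem WMod.LSimple.isLoc_res {W : WMod σ L} {f : MvPolynomial σ ℂ} (h : W.LSimple f)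
    (N : Submodule ℂ L) (hN : W.Stable N) (h0 : N ≠ ⊥) :
    IsLoc (W.res N hN) f W N.subtype where
  hx := fun _ _ => rfl
  hd := fun _ _ => rfl
  ker := by
    intro u
    constructor
    · intro hu
      refine ⟨0, ?_⟩
      rw [pow_zero, map_one]
      exact Subtype.ext hu
    · rintro ⟨k, hk⟩
      have h1 : W.x (f ^ k) (u : L) = 0 := congrArg Subtype.val hk
      exact W.x_pow_inj h.bij.1 k (by rw [map_zero]; exact h1)
  bij := h.bij
  frac := by
    intro v
    obtain ⟨k, hk⟩ := h.exists_pow N hN h0 v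
    exact ⟨k, ⟨_, hk⟩, rfl⟩

/-- Restriction keeps the growth type. -/
theorem WMod.Growth.res {W : WMod σ L} (h : W.Growth) (N : Submodule ℂ L) (hN : W.Stable N) :
    (W.res N hN).Growth := by
  obtain ⟨G, c, hG⟩ := h
  refine ⟨fun k => (G k).comap N.subtype, c, ⟨?_, ?_, ?_, ?_, ?_, ?_⟩⟩
  · intro a b hab u hu
    exact hG.mono hab hu
  · intro k
    have := hG.fin k
    refine Module.Finite.of_injective (M := (G k).comap N.subtype) (N := G k)
      ((N.subtype.comp ((G k).comap N.subtype).subtype).codRestrict (G k) (fun u => u.2)) ?_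
    intro u v huv
    have h1 := congrArg (fun t : G k => (t : L)) huv
    exact Subtype.ext (Subtype.ext h1)
  · intro k i u hu
    exact hG.hx k i _ hu
  · intro k i u hu
    exact hG.hd k i _ hu
  · intro u
    exact hG.exh u
  · intro k
    have := hG.fin k
    refine le_trans ?_ (hG.bound k)
    exact_mod_cast LinearMap.finrank_le_finrank_of_injective
      (f := (N.subtype.comp ((G k).comap N.subtype).subtype).codRestrict (G k) (fun u => u.2))
      (fun u v huv => Subtype.ext (Subtype.ext (congrArg (fun t : G k => (t : L)) huv)))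

/-- A simple submodule is a simple module. -/
theorem WMod.SimpleSub.simple {W : WMod σ L} {S : Submodule ℂ L} (hS : W.SimpleSub S) :
    (W.res S hS.1).Simple := by
  refine ⟨fun u _ => ⟨fun _ => trivial, fun _ => trivial⟩, ?_, ?_⟩
  · intro h
    obtain ⟨u, hu, hu0⟩ := Submodule.exists_mem_ne_zero_of_ne_bot hS.2.1
    have h1 : (⟨u, hu⟩ : S) ∈ (⊤ : Submodule ℂ S) := trivial
    rw [h, Submodule.mem_bot] at h1
    exact hu0 (congrArg Subtype.val h1)
  · intro N hN _
    have h1 : W.Stable (N.map S.subtype) := by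
      rintro _ ⟨u, hu, rfl⟩
      exact ⟨fun i => ⟨_, (hN u hu).1 i, rfl⟩, fun i => ⟨_, (hN u hu).2 i, rfl⟩⟩
    rcases hS.2.2 _ h1 (Submodule.map_subtype_le S N) with h2 | h2
    · left
      rw [eq_bot_iff]
      intro u hu
      have h3 : (u : L) ∈ N.map S.subtype := ⟨u, hu, rfl⟩
      rw [h2, Submodule.mem_bot] at h3
      exact (Submodule.mem_bot ℂ).2 (Subtype.ext h3)
    · right
      rw [eq_top_iff]
      intro u _
      have h3 : (u : L) ∈ N.map S.subtype := by rw [h2]; exact u.2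
      obtain ⟨v, hv, hv'⟩ := h3
      have h4 : v = u := Subtype.ext hv'
      rwa [← h4]

/-- Every `LSimple` module of growth type contains a simple module of growth type of which it is
the localisation. -/
theorem WMod.LSimple.exists_core {W : WMod σ L} {f : MvPolynomial σ ℂ} (h : W.LSimple f)
    (hG : W.Growth) : ∃ (S : Submodule ℂ L) (hS : W.Stable S), (W.res S hS).Simple ∧
      (W.res S hS).Growth ∧ IsLoc (W.res S hS) f W S.subtype ∧ S ≠ ⊥ ∧
      ∀ N : Submodule ℂ L, W.Stable N → N ≠ ⊥ → S ≤ N := by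
  have h1 : W.Stable (⊤ : Submodule ℂ L) := fun u _ => ⟨fun _ => trivial, fun _ => trivial⟩
  have h2 : (⊤ : Submodule ℂ L) ≠ ⊥ := by
    have := h.nt
    exact top_ne_bot
  obtain ⟨S, hS, -⟩ := W.exists_simple hG ⊤ h1 h2
  exact ⟨S, hS.1, hS.simple, hG.res S hS.1, h.isLoc_res S hS.1 hS.2.1, hS.2.1,
    fun N hN h0 => h.le_of_simple S N hS hN h0⟩

end Pool.DM
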