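import Pool.Agent.Work.MP_c20ce7_dm90.T2

set_option autoImplicit false

/-! Joseph's lemma and composition of operators of bounded total degree. -/

open MvPolynomial

noncomputable section

namespace Pool.DM

variable {σ : Type} [Fintype σ] [DecidableEq σ] {L : Type} [AddCommGroup L] [Module ℂ L]

theorem totalDegree_pderiv_le {τ : Type} [DecidableEq τ] (i : τ) (p : MvPolynomial τ ℂ) {k : ℕ}
    (h : p.totalDegree ≤ k + 1) : (pderiv i p).totalDegree ≤ k := by
  refine Finset.sup_le fun m hk => ?_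
  rw [mem_support_iff, coeff_pderiv] at hk
  have h1 : coeff (m + Finsupp.single i 1) p ≠ 0 := left_ne_zero_of_mul hk
  have h2 := le_totalDegree (mem_support_iff.2 h1)
  have h3 : (m + Finsupp.single i 1).sum (fun _ e => e) = m.sum (fun _ e => e) + 1 := by
    rw [Finsupp.sum_add_index' (fun _ => rfl) (fun _ _ _ => rfl), Finsupp.sum_single_index rfl]
  rw [h3] at h2
  omega

theorem exists_pderiv_ne {τ : Type} [DecidableEq τ] (p : MvPolynomial τ ℂ)
    (h : p.totalDegree ≠ 0) : ∃ i, pderiv i p ≠ 0 := by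
  by_contra hn
  push Not at hn
  apply h
  rw [← Nat.le_zero]
  refine Finset.sup_le fun m hk => ?_
  by_contra hm
  have hm0 : m ≠ 0 := by
    rintro rfl
    simp at hm
  obtain ⟨i, hi⟩ := Finsupp.ne_iff.1 hm0
  have h1 := congrArg (coeff (m - Finsupp.single i 1)) (hn i)
  rw [coeff_pderiv, coeff_zero] at h1
  have h2 : m - Finsupp.single i 1 + Finsupp.single i 1 = m := by
    ext j
    by_cases hj : j = i
    · subst hj
      simp only [Finsupp.coe_add, Finsupp.coe_tsub, Pi.add_apply, Pi.sub_apply,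
        Finsupp.single_eq_same]
      simp only [Finsupp.coe_zero, Pi.zero_apply] at hi
      omega
    · simp [Finsupp.single_apply, Ne.symm hj]
  rw [h2] at h1
  rcases mul_eq_zero.1 h1 with h3 | h3
  · exact (mem_support_iff.1 hk) h3
  · exact Nat.cast_add_one_ne_zero _ h3

theorem WMod.nf_C (W : WMod σ L) (a : ℂ) : W.nf (C a) = a • (1 : Module.End ℂ L) := by
  have h := W.nf_mul (C a) 1
  rw [map_one, map_one, mul_one, mul_one, rename_C, W.x_C] at h
  exact h

theorem WMod.nf_one (W : WMod σ L) : W.nf 1 = 1 := by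
  rw [← C_1, W.nf_C, one_smul]

theorem WMod.nf_x (W : WMod σ L) (f : MvPolynomial σ ℂ) :
    W.nf (rename Sum.inl f) = W.x f := by
  have h := W.nf_mul f 1
  rwa [map_one, map_one, mul_one, mul_one] at h

theorem WMod.nf_d (W : WMod σ L) (g : MvPolynomial σ ℂ) :
    W.nf (rename Sum.inr g) = W.d g := by
  have h := W.nf_mul 1 g
  rwa [map_one, map_one, one_mul, one_mul] at h

theorem totalDegree_X_mul_le {τ : Type} (i : τ) (p : MvPolynomial τ ℂ) {k : ℕ}
    (h : p.totalDegree ≤ k) : (X i * p).totalDegree ≤ k + 1 := by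
  refine (totalDegree_mul _ _).trans ?_
  rw [totalDegree_X]
  omega

/-- Joseph's lemma. -/
theorem WMod.joseph (W : WMod σ L) {w : L} (hw : w ≠ 0) (k : ℕ) :
    ∀ p : MvPolynomial (σ ⊕ σ) ℂ, p ≠ 0 → p.totalDegree ≤ k →
      ∃ q : MvPolynomial (σ ⊕ σ) ℂ, q.totalDegree ≤ k ∧ W.nf p (W.nf q w) ≠ 0 := by
  induction k with
  | zero =>
    intro p hp hk
    have h1 := totalDegree_eq_zero_iff_eq_C.1 (Nat.le_zero.1 hk)
    refine ⟨1, by simp, ?_⟩
    rw [W.nf_one, h1, W.nf_C]
    have h2 : coeff 0 p ≠ 0 := by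
      intro h
      rw [h, map_zero] at h1
      exact hp h1
    simpa using ⟨h2, hw⟩
  | succ k ih =>
    intro p hp hk
    by_cases h0 : p.totalDegree = 0
    · obtain ⟨q, hq, hq'⟩ := ih p hp (by omega)
      exact ⟨q, by omega, hq'⟩
    obtain ⟨s, hs⟩ := exists_pderiv_ne p h0
    obtain ⟨q, hq, hq'⟩ := ih _ hs (totalDegree_pderiv_le s p hk)
    by_contra hn
    push Not at hn
    apply hq'
    rcases s with i | i
    · have h1 : W.nf (pderiv (Sum.inl i) p) = W.d (X i) * W.nf p - W.nf p * W.d (X i) := by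
        rw [W.d_mul_nf, W.nf_mul_d, map_add, add_sub_cancel_left]
      rw [h1, LinearMap.sub_apply, Module.End.mul_apply, Module.End.mul_apply,
        hn q (by omega), map_zero, zero_sub, neg_eq_zero, ← Module.End.mul_apply (W.d (X i)),
        W.d_mul_nf]
      refine hn _ ((totalDegree_add _ _).trans (max_le (totalDegree_X_mul_le _ _ hq) ?_))
      exact (totalDegree_pderiv_le _ _ (hq.trans (Nat.le_succ k))).trans (Nat.le_succ k)
    · have h1 : W.nf (pderiv (Sum.inr i) p) = W.nf p * W.x (X i) - W.x (X i) * W.nf p := by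
        rw [W.nf_mul_x, W.x_mul_nf, map_add, add_sub_cancel_left]
      rw [h1, LinearMap.sub_apply, Module.End.mul_apply, Module.End.mul_apply,
        hn q (by omega), map_zero, sub_zero, ← Module.End.mul_apply (W.x (X i)),
        W.x_mul_nf]
      exact hn _ (totalDegree_X_mul_le _ _ hq)

theorem WMod.mem_B (W : WMod σ L) (k : ℕ) (w u : L) :
    u ∈ W.B k w ↔ ∃ p : MvPolynomial (σ ⊕ σ) ℂ, p.totalDegree ≤ k ∧ W.nf p w = u := by
  rw [WMod.B, Submodule.mem_map]
  constructor
  · rintro ⟨p, hp, rfl⟩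
    exact ⟨p, (mem_restrictTotalDegree _ _ _).1 hp, rfl⟩
  · rintro ⟨p, hp, rfl⟩
    exact ⟨p, (mem_restrictTotalDegree _ _ _).2 hp, rfl⟩

theorem WMod.B_x (W : WMod σ L) (k : ℕ) (w u : L) (i : σ) (hu : u ∈ W.B k w) :
    W.x (X i) u ∈ W.B (k + 1) w := by
  obtain ⟨p, hp, rfl⟩ := (W.mem_B k w u).1 hu
  rw [W.mem_B, ← Module.End.mul_apply, W.x_mul_nf]
  exact ⟨_, totalDegree_X_mul_le _ _ hp, rfl⟩

theorem WMod.B_d (W : WMod σ L) (k : ℕ) (w u : L) (i : σ) (hu : u ∈ W.B k w) :
    W.d (X i) u ∈ W.B (k + 1) w := by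
  obtain ⟨p, hp, rfl⟩ := (W.mem_B k w u).1 hu
  rw [W.mem_B, ← Module.End.mul_apply, W.d_mul_nf]
  refine ⟨_, (totalDegree_add _ _).trans (max_le (totalDegree_X_mul_le _ _ hp) ?_), rfl⟩
  exact (totalDegree_pderiv_le _ _ (hp.trans (Nat.le_succ k))).trans (Nat.le_succ k)

theorem WMod.B_mono (W : WMod σ L) (w : L) : Monotone fun k => W.B k w := by
  intro a b hab u hu
  obtain ⟨p, hp, rfl⟩ := (W.mem_B a w u).1 hu
  exact (W.mem_B b w _).2 ⟨p, hp.trans hab, rfl⟩

/-- Monomials of functions. -/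
theorem WMod.x_monomial (W : WMod σ L) (G : ℕ → Submodule ℂ L)
    (hx : ∀ k i, ∀ u ∈ G k, W.x (X i) u ∈ G (k + 1)) (a : σ →₀ ℕ) :
    ∀ k, ∀ u ∈ G k, W.x (monomial a 1) u ∈ G (k + a.sum fun _ e => e) := by
  induction a using Finsupp.induction_linear with
  | zero => intro k u hu; simpa using hu
  | add a b ha hb =>
    intro k u hu
    rw [← mul_one (1 : ℂ), ← monomial_mul, map_mul, Module.End.mul_apply,
      Finsupp.sum_add_index' (fun _ => rfl) (fun _ _ _ => rfl)]
    have := ha _ _ (hb k u hu)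
    rwa [show k + ((b.sum fun _ e => e)) + (a.sum fun _ e => e) =
      k + ((a.sum fun _ e => e) + b.sum fun _ e => e) by ring] at this
  | single i n =>
    induction n with
    | zero => intro k u hu; simpa using hu
    | succ n ih =>
      intro k u hu
      have h1 : (monomial (Finsupp.single i (n + 1)) (1 : ℂ)) =
          X i * monomial (Finsupp.single i n) 1 := by
        rw [X, monomial_mul, mul_one, ← Finsupp.single_add, add_comm 1 n]
      rw [h1, map_mul, Module.End.mul_apply]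
      have h2 := hx _ i _ (ih k u hu)
      rw [Finsupp.sum_single_index rfl] at h2 ⊢
      exact h2

theorem WMod.d_monomial (W : WMod σ L) (G : ℕ → Submodule ℂ L)
    (hd : ∀ k i, ∀ u ∈ G k, W.d (X i) u ∈ G (k + 1)) (a : σ →₀ ℕ) :
    ∀ k, ∀ u ∈ G k, W.d (monomial a 1) u ∈ G (k + a.sum fun _ e => e) := by
  induction a using Finsupp.induction_linear with
  | zero => intro k u hu; simpa using hu
  | add a b ha hb =>
    intro k u hu
    rw [← mul_one (1 : ℂ), ← monomial_mul, map_mul, Module.End.mul_apply,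
      Finsupp.sum_add_index' (fun _ => rfl) (fun _ _ _ => rfl)]
    have := ha _ _ (hb k u hu)
    rwa [show k + ((b.sum fun _ e => e)) + (a.sum fun _ e => e) =
      k + ((a.sum fun _ e => e) + b.sum fun _ e => e) by ring] at this
  | single i n =>
    induction n with
    | zero => intro k u hu; simpa using hu
    | succ n ih =>
      intro k u hu
      have h1 : (monomial (Finsupp.single i (n + 1)) (1 : ℂ)) =
          X i * monomial (Finsupp.single i n) 1 := by
        rw [X, monomial_mul, mul_one, ← Finsupp.single_add, add_comm 1 n]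
      rw [h1, map_mul, Module.End.mul_apply]
      have h2 := hd _ i _ (ih k u hu)
      rw [Finsupp.sum_single_index rfl] at h2 ⊢
      exact h2

/-- Operators of total degree at most `l` move a filtration by `l`. -/
theorem WMod.nf_filt (W : WMod σ L) (G : ℕ → Submodule ℂ L) (hm : Monotone G)
    (hx : ∀ k i, ∀ u ∈ G k, W.x (X i) u ∈ G (k + 1))
    (hd : ∀ k i, ∀ u ∈ G k, W.d (X i) u ∈ G (k + 1)) (l : ℕ)
    (p : MvPolynomial (σ ⊕ σ) ℂ) (hp : p.totalDegree ≤ l) (k : ℕ) (u : L) (hu : u ∈ G k) :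
    W.nf p u ∈ G (k + l) := by
  rw [p.as_sum, map_sum, LinearMap.sum_apply]
  refine Submodule.sum_mem _ fun m hmp => ?_
  rw [W.nf_monomial, LinearMap.smul_apply, Module.End.mul_apply]
  refine Submodule.smul_mem _ _ ?_
  have h1 := W.x_monomial G hx (Finsupp.sumFinsuppEquivProdFinsupp m).1 _ _
    (W.d_monomial G hd (Finsupp.sumFinsuppEquivProdFinsupp m).2 _ _ hu)
  refine hm ?_ h1
  have h2 : m.sum (fun _ e => e) ≤ l := (le_totalDegree hmp).trans hp
  have h3 : m.sum (fun _ e => e) =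
      ((Finsupp.sumFinsuppEquivProdFinsupp m).1.sum fun _ e => e) +
        ((Finsupp.sumFinsuppEquivProdFinsupp m).2.sum fun _ e => e) := by
    conv_lhs => rw [← Finsupp.sumFinsuppEquivProdFinsupp.symm_apply_apply m]
    rw [← Prod.mk.eta (p := Finsupp.sumFinsuppEquivProdFinsupp m), ← sum_split]
    rw [Finsupp.sum_add_index' (fun _ => rfl) (fun _ _ _ => rfl),
      Finsupp.sum_mapDomain_index_inj Sum.inl_injective,
      Finsupp.sum_mapDomain_index_inj Sum.inr_injective]
  omega

/-- Composition. -/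
theorem WMod.nf_B (W : WMod σ L) (w : L) {k l : ℕ} (p : MvPolynomial (σ ⊕ σ) ℂ)
    (hp : p.totalDegree ≤ l) {u : L} (hu : u ∈ W.B k w) : W.nf p u ∈ W.B (k + l) w :=
  W.nf_filt (fun k => W.B k w) (W.B_mono w) (fun k i u hu => W.B_x k w u i hu)
    (fun k i u hu => W.B_d k w u i hu) l p hp k u hu

end Pool.DM
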