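import Mathlib

set_option autoImplicit false

/-!
# Modules over the Weyl algebra: the language

`WMod σ L`: a complex vector space `L` with commuting operators `x_i` and commuting operators `d_i`
(`i : σ`) such that `[d_i, x_j] = δ_ij`.  The commuting families are given as algebra homomorphisms
`W.x`, `W.d` from `MvPolynomial σ ℂ` (functions, constant coefficient operators); `W.x f` is the
multiplication by the function `f`.
-/

open MvPolynomial

noncomputable section

namespace Pool.DM

/-- A module over the Weyl algebra with the coordinates `x_i`, `i : σ`. -/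
structure WMod (σ : Type) (L : Type) [AddCommGroup L] [Module ℂ L] [DecidableEq σ] where
  x : MvPolynomial σ ℂ →ₐ[ℂ] Module.End ℂ L
  d : MvPolynomial σ ℂ →ₐ[ℂ] Module.End ℂ L
  comm : ∀ i j, d (X i) * x (X j) - x (X j) * d (X i) = if i = j then 1 else 0

variable {σ : Type} [Fintype σ] [DecidableEq σ] {L : Type} [AddCommGroup L] [Module ℂ L]

/-- The operator with the (normally ordered) total symbol `p`; `X (inl i)` is `x_i`, `X (inr i)` is
`d_i`, the functions stand to the left of the derivations. -/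
def WMod.nf (W : WMod σ L) : MvPolynomial (σ ⊕ σ) ℂ →ₗ[ℂ] Module.End ℂ L :=
  (MvPolynomial.basisMonomials (σ ⊕ σ) ℂ).constr ℂ fun m =>
    W.x (monomial (Finsupp.sumFinsuppEquivProdFinsupp m).1 1) *
      W.d (monomial (Finsupp.sumFinsuppEquivProdFinsupp m).2 1)

/-- A subspace which is stable under all operators. -/
def WMod.Stable (W : WMod σ L) (N : Submodule ℂ L) : Prop :=
  ∀ u ∈ N, (∀ i, W.x (X i) u ∈ N) ∧ ∀ i, W.d (X i) u ∈ N

/-- `S` is a simple submodule. -/
def WMod.SimpleSub (W : WMod σ L) (S : Submodule ℂ L) : Prop :=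
  W.Stable S ∧ S ≠ ⊥ ∧ ∀ N : Submodule ℂ L, W.Stable N → N ≤ S → N = ⊥ ∨ N = S

/-- `L` is simple. -/
def WMod.Simple (W : WMod σ L) : Prop := W.SimpleSub ⊤

/-- The operators of total degree at most `k` applied to `w`. -/
def WMod.B (W : WMod σ L) (k : ℕ) (w : L) : Submodule ℂ L :=
  (restrictTotalDegree (σ ⊕ σ) ℂ k).map ((LinearMap.applyₗ w).comp W.nf)

/-- A growth filtration of type `n = card σ`. -/
structure WMod.GrowthBy (W : WMod σ L) (G : ℕ → Submodule ℂ L) (c : ℝ) : Prop where
  mono : Monotone G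
  fin : ∀ k, Module.Finite ℂ (G k)
  hx : ∀ k i, ∀ u ∈ G k, W.x (X i) u ∈ G (k + 1)
  hd : ∀ k i, ∀ u ∈ G k, W.d (X i) u ∈ G (k + 1)
  exh : ∀ u, ∃ k, u ∈ G k
  bound : ∀ k, (Module.finrank ℂ (G k) : ℝ) ≤ c * ((k : ℝ) + 1) ^ Fintype.card σ

/-- `L` is contained in a module of the growth type of holonomic modules. -/
def WMod.Growth (W : WMod σ L) : Prop := ∃ G c, W.GrowthBy G c

end Pool.DM
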