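import Pool.Agent.Work.MP_c20ce7_dm90.Defs90

set_option autoImplicit false

open MvPolynomial

noncomputable section

namespace Pool.DM

variable {σ : Type} [Fintype σ] [DecidableEq σ] {L : Type} [AddCommGroup L] [Module ℂ L]

theorem WMod.Stable.xmem {W : WMod σ L} {N : Submodule ℂ L} (h : W.Stable N)
    (p : MvPolynomial σ ℂ) : ∀ u ∈ N, W.x p u ∈ N := by
  induction p using MvPolynomial.induction_on with
  | C a =>
    intro u hu
    have : W.x (C a) = a • (1 : Module.End ℂ L) := by
      rw [← MvPolynomial.algebraMap_eq, AlgHom.commutes, Algebra.algebraMap_eq_smul_one]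
    rw [this]
    exact N.smul_mem a hu
  | add p q hp hq =>
    intro u hu
    rw [map_add]
    exact N.add_mem (hp u hu) (hq u hu)
  | mul_X p i hp =>
    intro u hu
    rw [map_mul]
    exact hp _ ((h u hu).1 i)

theorem WMod.Stable.dmem {W : WMod σ L} {N : Submodule ℂ L} (h : W.Stable N)
    (p : MvPolynomial σ ℂ) : ∀ u ∈ N, W.d p u ∈ N := by
  induction p using MvPolynomial.induction_on with
  | C a =>
    intro u hu
    have : W.d (C a) = a • (1 : Module.End ℂ L) := by
      rw [← MvPolynomial.algebraMap_eq, AlgHom.commutes, Algebra.algebraMap_eq_smul_one]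
    rw [this]
    exact N.smul_mem a hu
  | add p q hp hq =>
    intro u hu
    rw [map_add]
    exact N.add_mem (hp u hu) (hq u hu)
  | mul_X p i hp =>
    intro u hu
    rw [map_mul]
    exact hp _ ((h u hu).2 i)

/-- Restriction to a stable subspace. -/
def WMod.res (W : WMod σ L) (N : Submodule ℂ L) (h : W.Stable N) : WMod σ N where
  x := AlgHom.ofLinearMap
    { toFun := fun p => (W.x p).restrict (h.xmem p)
      map_add' := fun p q => by ext u; simp [LinearMap.restrict_apply]
      map_smul' := fun c p => by ext u; simp [LinearMap.restrict_apply] }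
    (by ext u; simp [LinearMap.restrict_apply])
    (fun p q => by ext u; simp [LinearMap.restrict_apply])
  d := AlgHom.ofLinearMap
    { toFun := fun p => (W.d p).restrict (h.dmem p)
      map_add' := fun p q => by ext u; simp [LinearMap.restrict_apply]
      map_smul' := fun c p => by ext u; simp [LinearMap.restrict_apply] }
    (by ext u; simp [LinearMap.restrict_apply])
    (fun p q => by ext u; simp [LinearMap.restrict_apply])
  comm := fun i j => by
    ext u
    have := congrArg (fun f => f (u : L)) (W.comm i j)
    by_cases hij : i = j
    · simp [hij, LinearMap.restrict_apply] at this ⊢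
      simpa using this
    · simp [hij, LinearMap.restrict_apply] at this ⊢
      simpa using this

@[simp] theorem WMod.res_x (W : WMod σ L) (N : Submodule ℂ L) (h : W.Stable N)
    (p : MvPolynomial σ ℂ) (u : N) : (((W.res N h).x p u : N) : L) = W.x p u := rfl

@[simp] theorem WMod.res_d (W : WMod σ L) (N : Submodule ℂ L) (h : W.Stable N)
    (p : MvPolynomial σ ℂ) (u : N) : (((W.res N h).d p u : N) : L) = W.d p u := rfl

/-- The quotient by a stable subspace. -/
def WMod.quot (W : WMod σ L) (N : Submodule ℂ L) (h : W.Stable N) : WMod σ (L ⧸ N) where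
  x := AlgHom.ofLinearMap
    { toFun := fun p => N.mapQ N (W.x p) (h.xmem p)
      map_add' := fun p q => by
        ext u
        simp [Submodule.mapQ_apply]
      map_smul' := fun c p => by
        ext u
        simp [Submodule.mapQ_apply] }
    (by ext u; simp [Submodule.mapQ_apply])
    (fun p q => by ext u; simp [Submodule.mapQ_apply])
  d := AlgHom.ofLinearMap
    { toFun := fun p => N.mapQ N (W.d p) (h.dmem p)
      map_add' := fun p q => by
        ext u
        simp [Submodule.mapQ_apply]
      map_smul' := fun c p => by
        ext u
        simp [Submodule.mapQ_apply] }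
    (by ext u; simp [Submodule.mapQ_apply])
    (fun p q => by ext u; simp [Submodule.mapQ_apply])
  comm := fun i j => by
    ext u
    have := congrArg (fun f => N.mkQ (f (u : L))) (W.comm i j)
    by_cases hij : i = j
    · simp [hij] at this ⊢
      simpa using this
    · simp [hij] at this ⊢
      simpa using this

end Pool.DM
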