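import Pool.Agent.Work.MP_c20ce7_dm90.T1

set_option autoImplicit false

open MvPolynomial

noncomputable section

namespace Pool.DM

variable {σ : Type} [Fintype σ] [DecidableEq σ] {L : Type} [AddCommGroup L] [Module ℂ L]

theorem WMod.x_C (W : WMod σ L) (a : ℂ) : W.x (C a) = a • (1 : Module.End ℂ L) := by
  rw [← MvPolynomial.algebraMap_eq, AlgHom.commutes, Algebra.algebraMap_eq_smul_one]

theorem WMod.d_C (W : WMod σ L) (a : ℂ) : W.d (C a) = a • (1 : Module.End ℂ L) := by
  rw [← MvPolynomial.algebraMap_eq, AlgHom.commutes, Algebra.algebraMap_eq_smul_one]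

/-- `[d_i, f] = ∂_i f`. -/
theorem WMod.d_mul_x (W : WMod σ L) (i : σ) (f : MvPolynomial σ ℂ) :
    W.d (X i) * W.x f = W.x f * W.d (X i) + W.x (pderiv i f) := by
  induction f using MvPolynomial.induction_on with
  | C a => simp [W.x_C]
  | add p q hp hq => simp only [map_add, mul_add, add_mul, hp, hq]; abel
  | mul_X p j hp =>
    have hc := W.comm i j
    rw [sub_eq_iff_eq_add] at hc
    rw [map_mul, ← mul_assoc, hp, add_mul, mul_assoc, hc]
    rw [Derivation.leibniz, map_add, smul_eq_mul, smul_eq_mul, pderiv_X]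
    by_cases h : i = j
    · subst h
      simp [mul_add, mul_assoc, (mul_comm (X i) (pderiv i p))]
      abel
    · have h' : j ≠ i := fun e => h e.symm
      simp [h, h', Pi.single_apply, mul_assoc, (mul_comm (X j) (pderiv i p))]

/-- `[g(d), x_i] = (∂_i g)(d)`. -/
theorem WMod.d_mul_x' (W : WMod σ L) (i : σ) (g : MvPolynomial σ ℂ) :
    W.d g * W.x (X i) = W.x (X i) * W.d g + W.d (pderiv i g) := by
  induction g using MvPolynomial.induction_on with
  | C a => simp [W.d_C]
  | add p q hp hq => simp only [map_add, mul_add, add_mul, hp, hq]; abel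
  | mul_X p j hp =>
    have hc := W.comm j i
    rw [sub_eq_iff_eq_add] at hc
    rw [map_mul, mul_assoc, hc, mul_add, ← mul_assoc, hp, add_mul]
    rw [Derivation.leibniz, map_add, smul_eq_mul, smul_eq_mul, pderiv_X]
    by_cases h : j = i
    · subst h
      simp [mul_assoc, (mul_comm (X j) (pderiv j p))]
      abel
    · simp [h, Pi.single_apply, mul_assoc, (mul_comm (X j) (pderiv i p))]

theorem WMod.nf_monomial (W : WMod σ L) (m : σ ⊕ σ →₀ ℕ) (c : ℂ) :
    W.nf (monomial m c) = c • (W.x (monomial (Finsupp.sumFinsuppEquivProdFinsupp m).1 1) *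
      W.d (monomial (Finsupp.sumFinsuppEquivProdFinsupp m).2 1)) := by
  have h : (monomial m c : MvPolynomial (σ ⊕ σ) ℂ) =
      c • (MvPolynomial.basisMonomials (σ ⊕ σ) ℂ) m := by
    rw [coe_basisMonomials, smul_monomial, smul_eq_mul, mul_one]
  rw [h, map_smul, WMod.nf, Module.Basis.constr_basis]

theorem sum_split (a b : σ →₀ ℕ) :
    Finsupp.mapDomain Sum.inl a + Finsupp.mapDomain Sum.inr b =
      Finsupp.sumFinsuppEquivProdFinsupp.symm (a, b) := by
  ext s
  rcases s with s | s
  · rw [Finsupp.add_apply, Finsupp.mapDomain_apply Sum.inl_injective,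
      Finsupp.mapDomain_of_notMem_range]
    · simp
    · simp
  · rw [Finsupp.add_apply, Finsupp.mapDomain_apply Sum.inr_injective,
      Finsupp.mapDomain_of_notMem_range]
    · simp
    · simp

theorem WMod.nf_mul (W : WMod σ L) (f g : MvPolynomial σ ℂ) :
    W.nf (rename Sum.inl f * rename Sum.inr g) = W.x f * W.d g := by
  induction f using MvPolynomial.induction_on' with
  | add p q hp hq => simp only [map_add, add_mul, hp, hq]
  | monomial a c =>
    induction g using MvPolynomial.induction_on' with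
    | add p q hp hq => simp only [map_add, mul_add, hp, hq]
    | monomial b e =>
      have h : (rename Sum.inl (monomial a c) * rename Sum.inr (monomial b e) :
          MvPolynomial (σ ⊕ σ) ℂ) =
          monomial (Finsupp.sumFinsuppEquivProdFinsupp.symm (a, b)) (c * e) := by
        rw [rename_monomial, rename_monomial, monomial_mul, sum_split]
      rw [h, W.nf_monomial, Equiv.apply_symm_apply]
      have h1 : (monomial a c : MvPolynomial σ ℂ) = c • monomial a 1 := by
        rw [smul_monomial, smul_eq_mul, mul_one]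
      have h2 : (monomial b e : MvPolynomial σ ℂ) = e • monomial b 1 := by
        rw [smul_monomial, smul_eq_mul, mul_one]
      rw [h1, h2, map_smul, map_smul, smul_mul_assoc, mul_smul_comm, smul_smul]

/-- Induction principle: a linear statement about `p` needs only to be checked for products
`f(x) g(ξ)`. -/
theorem sum_ind (P : MvPolynomial (σ ⊕ σ) ℂ → Prop)
    (h0 : ∀ f g : MvPolynomial σ ℂ, P (rename Sum.inl f * rename Sum.inr g))
    (hadd : ∀ p q, P p → P q → P (p + q)) (p : MvPolynomial (σ ⊕ σ) ℂ) : P p := by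
  induction p using MvPolynomial.induction_on' with
  | add p q hp hq => exact hadd p q hp hq
  | monomial m c =>
    have h : (rename Sum.inl (monomial (Finsupp.sumFinsuppEquivProdFinsupp m).1 c) *
        rename Sum.inr (monomial (Finsupp.sumFinsuppEquivProdFinsupp m).2 1) :
          MvPolynomial (σ ⊕ σ) ℂ) = monomial m c := by
      rw [rename_monomial, rename_monomial, monomial_mul, mul_one, sum_split,
        Prod.mk.eta, Equiv.symm_apply_apply]
    rw [← h]
    exact h0 _ _

theorem pderiv_inl_mul (i : σ) (f g : MvPolynomial σ ℂ) :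
    pderiv (Sum.inl i) (rename Sum.inl f * rename Sum.inr g : MvPolynomial (σ ⊕ σ) ℂ) =
      rename Sum.inl (pderiv i f) * rename Sum.inr g := by
  rw [Derivation.leibniz, pderiv_rename Sum.inl_injective]
  have h : pderiv (Sum.inl i) (rename Sum.inr g : MvPolynomial (σ ⊕ σ) ℂ) = 0 := by
    induction g using MvPolynomial.induction_on with
    | C a => simp
    | add p q hp hq => simp [hp, hq]
    | mul_X p j hp => simp [hp, Derivation.leibniz]
  rw [h, smul_zero, zero_add, smul_eq_mul, mul_comm]

theorem pderiv_inr_mul (i : σ) (f g : MvPolynomial σ ℂ) :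
    pderiv (Sum.inr i) (rename Sum.inl f * rename Sum.inr g : MvPolynomial (σ ⊕ σ) ℂ) =
      rename Sum.inl f * rename Sum.inr (pderiv i g) := by
  rw [Derivation.leibniz, pderiv_rename Sum.inr_injective]
  have h : pderiv (Sum.inr i) (rename Sum.inl f : MvPolynomial (σ ⊕ σ) ℂ) = 0 := by
    induction f using MvPolynomial.induction_on with
    | C a => simp
    | add p q hp hq => simp [hp, hq]
    | mul_X p j hp => simp [hp, Derivation.leibniz]
  rw [h, smul_zero, add_zero, smul_eq_mul]

theorem WMod.x_mul_nf (W : WMod σ L) (p : MvPolynomial (σ ⊕ σ) ℂ) (i : σ) :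
    W.x (X i) * W.nf p = W.nf (X (Sum.inl i) * p) := by
  induction p using sum_ind with
  | h0 f g =>
    rw [W.nf_mul, ← mul_assoc, ← mul_assoc, ← map_mul]
    rw [show (X (Sum.inl i) : MvPolynomial (σ ⊕ σ) ℂ) = rename Sum.inl (X i) by simp,
      ← map_mul, W.nf_mul]
  | hadd p q hp hq => simp only [map_add, mul_add, hp, hq]

theorem WMod.nf_mul_d (W : WMod σ L) (p : MvPolynomial (σ ⊕ σ) ℂ) (i : σ) :
    W.nf p * W.d (X i) = W.nf (X (Sum.inr i) * p) := by
  induction p using sum_ind with
  | h0 f g =>
    rw [W.nf_mul, mul_assoc, ← map_mul]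
    rw [show (X (Sum.inr i) * (rename Sum.inl f * rename Sum.inr g) : MvPolynomial (σ ⊕ σ) ℂ) =
      rename Sum.inl f * rename Sum.inr (g * X i) by rw [map_mul, rename_X]; ring, W.nf_mul]
  | hadd p q hp hq => simp only [map_add, mul_add, add_mul, hp, hq]

theorem WMod.d_mul_nf (W : WMod σ L) (p : MvPolynomial (σ ⊕ σ) ℂ) (i : σ) :
    W.d (X i) * W.nf p = W.nf (X (Sum.inr i) * p + pderiv (Sum.inl i) p) := by
  induction p using sum_ind with
  | h0 f g =>
    rw [map_add, ← W.nf_mul_d, pderiv_inl_mul, W.nf_mul, W.nf_mul, ← mul_assoc, W.d_mul_x,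
      add_mul, mul_assoc, mul_assoc, ← map_mul, ← map_mul, mul_comm (X i) g]
  | hadd p q hp hq =>
    simp only [map_add, mul_add, hp, hq]
    abel

theorem WMod.nf_mul_x (W : WMod σ L) (p : MvPolynomial (σ ⊕ σ) ℂ) (i : σ) :
    W.nf p * W.x (X i) = W.nf (X (Sum.inl i) * p + pderiv (Sum.inr i) p) := by
  induction p using sum_ind with
  | h0 f g =>
    rw [map_add, ← W.x_mul_nf, pderiv_inr_mul, W.nf_mul, W.nf_mul, mul_assoc, W.d_mul_x',
      mul_add, ← mul_assoc, ← mul_assoc, ← map_mul, ← map_mul, mul_comm (X i) f]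
  | hadd p q hp hq =>
    simp only [map_add, mul_add, add_mul, hp, hq]
    abel

end Pool.DM
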