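import Pool.Agent.Work.MP_c20ce7_dm90.T3

set_option autoImplicit false

/-! Growth, finite length, simple submodules. -/

open MvPolynomial

noncomputable section

namespace Pool.DM

variable {σ : Type} [Fintype σ] [DecidableEq σ] {L : Type} [AddCommGroup L] [Module ℂ L]

theorem finrank_restrictTotalDegree {τ : Type} [Fintype τ] [DecidableEq τ] (k : ℕ) :
    (k + 1) ^ Fintype.card τ ≤ Fintype.card τ ^ Fintype.card τ *
      Module.finrank ℂ (restrictTotalDegree τ ℂ k) := by
  set N := Fintype.card τ with hN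
  have h1 : (k / N + 1) ^ N ≤ Module.finrank ℂ (restrictTotalDegree τ ℂ k) := by
    have hdeg : ∀ a : τ → Fin (k / N + 1),
        (monomial (Finsupp.equivFunOnFinite.symm fun i => (a i : ℕ)) (1 : ℂ)) ∈
          restrictTotalDegree τ ℂ k := by
      intro a
      rw [mem_restrictTotalDegree]
      refine (totalDegree_monomial_le _ _).trans ?_
      rw [Finsupp.sum_fintype _ _ (fun _ => rfl)]
      simp only [Finsupp.equivFunOnFinite_symm_apply_apply, id]
      calc ∑ i, (a i : ℕ) ≤ ∑ _i : τ, k / N :=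
            Finset.sum_le_sum fun i _ => Nat.lt_succ_iff.1 (a i).2
        _ = N * (k / N) := by simp [hN]
        _ ≤ k := Nat.mul_div_le k N
    have hli : LinearIndependent ℂ fun a : τ → Fin (k / N + 1) =>
        (⟨_, hdeg a⟩ : restrictTotalDegree τ ℂ k) := by
      apply LinearIndependent.of_comp (restrictTotalDegree τ ℂ k).subtype
      have h2 := (MvPolynomial.basisMonomials τ ℂ).linearIndependent.comp
        (fun a : τ → Fin (k / N + 1) => Finsupp.equivFunOnFinite.symm fun i => (a i : ℕ))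
        (by
          intro a b hab
          have h3 := Finsupp.equivFunOnFinite.symm.injective hab
          funext i
          exact Fin.ext (congrFun h3 i))
      convert h2 using 1
      funext a
      simp
    have h3 := hli.fintype_card_le_finrank
    simpa [hN] using h3
  have h2 : (k + 1) ^ N ≤ N ^ N * (k / N + 1) ^ N := by
    rw [← mul_pow]
    rcases Nat.eq_zero_or_pos N with h0 | h0
    · rw [h0, pow_zero, pow_zero]
    · exact Nat.pow_le_pow_left (Nat.lt_mul_div_succ k h0) N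
  exact h2.trans (Nat.mul_le_mul_left _ h1)

instance WMod.B_finite (W : WMod σ L) (k : ℕ) (w : L) : Module.Finite ℂ (W.B k w) := by
  unfold WMod.B
  infer_instance

theorem WMod.joseph_ineq (W : WMod σ L) {w : L} (hw : w ≠ 0) (k : ℕ) :
    Module.finrank ℂ (restrictTotalDegree (σ ⊕ σ) ℂ k) ≤
      Module.finrank ℂ (W.B k w) * Module.finrank ℂ (W.B (2 * k) w) := by
  rw [← Module.finrank_linearMap ℂ ℂ]
  let Φ : restrictTotalDegree (σ ⊕ σ) ℂ k →ₗ[ℂ] (W.B k w →ₗ[ℂ] W.B (2 * k) w) :=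
    { toFun := fun p => LinearMap.restrict (W.nf p) (fun u hu => by
        have := W.nf_B w (p : MvPolynomial (σ ⊕ σ) ℂ)
          ((mem_restrictTotalDegree _ _ _).1 p.2) hu
        rwa [← two_mul] at this)
      map_add' := fun p q => by
        ext u
        simp [LinearMap.restrict_apply]
      map_smul' := fun c p => by
        ext u
        simp [LinearMap.restrict_apply] }
  refine LinearMap.finrank_le_finrank_of_injective (f := Φ) ?_
  rw [injective_iff_map_eq_zero]
  intro p hp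
  by_contra hne
  have hne' : (p : MvPolynomial (σ ⊕ σ) ℂ) ≠ 0 := fun h => hne (Subtype.ext h)
  obtain ⟨q, hq, hq'⟩ := W.joseph hw k p hne' ((mem_restrictTotalDegree _ _ _).1 p.2)
  apply hq'
  have h1 := LinearMap.congr_fun hp ⟨W.nf q w, (W.mem_B k w _).2 ⟨q, hq, rfl⟩⟩
  exact congrArg Subtype.val h1

theorem WMod.B_lower (W : WMod σ L) {w : L} (hw : w ≠ 0) (k : ℕ) :
    (k + 1) ^ Fintype.card σ ≤ (2 * Fintype.card σ) ^ Fintype.card σ *
      Module.finrank ℂ (W.B (2 * k) w) := by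
  have h1 := finrank_restrictTotalDegree (τ := σ ⊕ σ) k
  have h2 := W.joseph_ineq hw k
  have h3 : Module.finrank ℂ (W.B k w) ≤ Module.finrank ℂ (W.B (2 * k) w) :=
    Submodule.finrank_mono (W.B_mono w (by omega))
  rw [Fintype.card_sum, ← two_mul] at h1
  set n := Fintype.card σ
  have h4 : ((k + 1) ^ n) ^ 2 ≤ ((2 * n) ^ n * Module.finrank ℂ (W.B (2 * k) w)) ^ 2 := by
    calc ((k + 1) ^ n) ^ 2 = (k + 1) ^ (2 * n) := by rw [← pow_mul, mul_comm]
      _ ≤ (2 * n) ^ (2 * n) * (Module.finrank ℂ (W.B k w) * Module.finrank ℂ (W.B (2 * k) w)) :=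
        h1.trans (Nat.mul_le_mul_left _ h2)
      _ ≤ (2 * n) ^ (2 * n) *
          (Module.finrank ℂ (W.B (2 * k) w) * Module.finrank ℂ (W.B (2 * k) w)) :=
        Nat.mul_le_mul_left _ (Nat.mul_le_mul_right _ h3)
      _ = ((2 * n) ^ n * Module.finrank ℂ (W.B (2 * k) w)) ^ 2 := by ring
  exact (Nat.pow_le_pow_iff_left two_ne_zero).1 h4

theorem WMod.quot_nf (W : WMod σ L) (N : Submodule ℂ L) (h : W.Stable N)
    (p : MvPolynomial (σ ⊕ σ) ℂ) (u : L) :
    (W.quot N h).nf p (N.mkQ u) = N.mkQ (W.nf p u) := by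
  induction p using sum_ind generalizing u with
  | h0 f g =>
    rw [WMod.nf_mul, WMod.nf_mul]
    rfl
  | hadd p q hp hq =>
    rw [map_add, map_add, LinearMap.add_apply, LinearMap.add_apply, hp, hq, map_add]

theorem WMod.Stable.nf_mem {W : WMod σ L} {N : Submodule ℂ L} (h : W.Stable N)
    (p : MvPolynomial (σ ⊕ σ) ℂ) {u : L} (hu : u ∈ N) : W.nf p u ∈ N := by
  induction p using sum_ind with
  | h0 f g =>
    rw [WMod.nf_mul]
    exact h.xmem f _ (h.dmem g _ hu)
  | hadd p q hp hq =>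
    rw [map_add]
    exact N.add_mem hp hq

/-- One step of a chain. -/
theorem WMod.chain_step (W : WMod σ L) (G : ℕ → Submodule ℂ L) (c : ℝ) (hG : W.GrowthBy G c)
    (A B : Submodule ℂ L) (hA : W.Stable A) (hB : W.Stable B) (hAB : A ≤ B) {w : L}
    (hw : w ∈ B) (hwA : w ∉ A) {k0 : ℕ} (hk0 : w ∈ G k0) (k : ℕ) :
    (2 * Fintype.card σ) ^ Fintype.card σ *
        Module.finrank ℂ (G (k0 + 2 * k) ⊓ A : Submodule ℂ L) + (k + 1) ^ Fintype.card σ ≤
      (2 * Fintype.card σ) ^ Fintype.card σ *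
        Module.finrank ℂ (G (k0 + 2 * k) ⊓ B : Submodule ℂ L) := by
  set m := k0 + 2 * k with hm
  have := hG.fin m
  have h0 : Module.Finite ℂ (G m ⊓ B : Submodule ℂ L) :=
    Submodule.finiteDimensional_inf_left _ _
  have h0' : Module.Finite ℂ (G m ⊓ A : Submodule ℂ L) :=
    Submodule.finiteDimensional_inf_left _ _
  have hw0 : A.mkQ w ≠ 0 := by
    rw [Submodule.mkQ_apply, Ne, Submodule.Quotient.mk_eq_zero]
    exact hwA
  have h1 := (W.quot A hA).B_lower hw0 k
  let ψ : (G m ⊓ B : Submodule ℂ L) →ₗ[ℂ] L ⧸ A := A.mkQ.comp (G m ⊓ B).subtype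
  have h2 := LinearMap.finrank_range_add_finrank_ker ψ
  have h3 : Module.finrank ℂ ((W.quot A hA).B (2 * k) (A.mkQ w)) ≤
      Module.finrank ℂ (LinearMap.range ψ) := by
    apply Submodule.finrank_mono
    intro u hu
    obtain ⟨p, hp, rfl⟩ := ((W.quot A hA).mem_B _ _ _).1 hu
    rw [W.quot_nf]
    have h4 : W.nf p w ∈ G m :=
      W.nf_filt G hG.mono hG.hx hG.hd (2 * k) p hp k0 w hk0
    exact ⟨⟨W.nf p w, h4, hB.nf_mem p hw⟩, rfl⟩
  have h4 : Module.finrank ℂ (G m ⊓ A : Submodule ℂ L) ≤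
      Module.finrank ℂ (LinearMap.ker ψ) := by
    let e : (G m ⊓ A : Submodule ℂ L) →ₗ[ℂ] LinearMap.ker ψ :=
      { toFun := fun u => ⟨⟨u, u.2.1, hAB u.2.2⟩, by
          rw [LinearMap.mem_ker]
          change A.mkQ (u : L) = 0
          rw [Submodule.mkQ_apply, Submodule.Quotient.mk_eq_zero]
          exact u.2.2⟩
        map_add' := fun _ _ => rfl
        map_smul' := fun _ _ => rfl }
    refine LinearMap.finrank_le_finrank_of_injective (f := e) ?_
    intro u v huv
    have h5 := congrArg (fun t : LinearMap.ker ψ => ((t : (G m ⊓ B : Submodule ℂ L)) : L)) huv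
    exact Subtype.ext h5
  rw [← h2, mul_add]
  have h5 := h1.trans (Nat.mul_le_mul_left _ h3)
  have h6 := Nat.mul_le_mul_left ((2 * Fintype.card σ) ^ Fintype.card σ) h4
  omega

/-- Chains of stable subspaces have bounded length. -/
theorem WMod.chain_bound (W : WMod σ L) (G : ℕ → Submodule ℂ L) (c : ℝ)
    (hG : W.GrowthBy G c) (r : ℕ) (N : ℕ → Submodule ℂ L) (hN : ∀ j, W.Stable (N j))
    (hlt : ∀ j < r, N j < N (j + 1)) :
    (r : ℝ) ≤ (2 * Fintype.card σ) ^ Fintype.card σ * (c * 3 ^ Fintype.card σ) := by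
  have h1 : ∀ j, ∃ w : L, j < r → w ∈ N (j + 1) ∧ w ∉ N j := by
    intro j
    by_cases hj : j < r
    · obtain ⟨w, hw, hw'⟩ := Set.exists_of_ssubset (SetLike.coe_ssubset_coe.2 (hlt j hj))
      exact ⟨w, fun _ => ⟨hw, hw'⟩⟩
    · exact ⟨0, fun h => absurd h hj⟩
  choose w hw using h1
  have h2 : ∃ k0, ∀ j < r, w j ∈ G k0 := by
    choose κ hκ using fun j => hG.exh (w j)
    refine ⟨(Finset.range r).sup κ, fun j hj => ?_⟩
    exact hG.mono (Finset.le_sup (f := κ) (Finset.mem_range.2 hj)) (hκ j)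
  obtain ⟨k0, hk0⟩ := h2
  have h3 : ∀ j ≤ r, j * (k0 + 1) ^ Fintype.card σ ≤
      (2 * Fintype.card σ) ^ Fintype.card σ *
        Module.finrank ℂ (G (k0 + 2 * k0) ⊓ N j : Submodule ℂ L) := by
    intro j
    induction j with
    | zero => intro _; simp
    | succ j ih =>
      intro hj
      have h4 := W.chain_step G c hG (N j) (N (j + 1)) (hN j) (hN (j + 1))
        (hlt j (by omega)).le (hw j (by omega)).1 (hw j (by omega)).2 (hk0 j (by omega)) k0
      have h5 := ih (by omega)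
      rw [add_mul, one_mul]
      omega
  have := hG.fin (k0 + 2 * k0)
  have h4 : Module.finrank ℂ (G (k0 + 2 * k0) ⊓ N r : Submodule ℂ L) ≤
      Module.finrank ℂ (G (k0 + 2 * k0)) := Submodule.finrank_mono inf_le_left
  have h5 := (h3 r le_rfl).trans (Nat.mul_le_mul_left _ h4)
  have h6 := hG.bound (k0 + 2 * k0)
  set n := Fintype.card σ
  have hc : 0 ≤ c := by
    have h7 := (Nat.cast_nonneg (α := ℝ) _).trans (hG.bound 0)
    simpa using h7
  have h7 : (r : ℝ) * ((k0 : ℝ) + 1) ^ n ≤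
      ((2 * n) ^ n * (c * 3 ^ n)) * ((k0 : ℝ) + 1) ^ n := by
    calc (r : ℝ) * ((k0 : ℝ) + 1) ^ n ≤
        ((2 * (n : ℝ)) ^ n * Module.finrank ℂ (G (k0 + 2 * k0))) := by exact_mod_cast h5
      _ ≤ (2 * (n : ℝ)) ^ n * (c * (((k0 + 2 * k0 : ℕ) : ℝ) + 1) ^ n) :=
        mul_le_mul_of_nonneg_left h6 (by positivity)
      _ ≤ (2 * (n : ℝ)) ^ n * (c * (3 * ((k0 : ℝ) + 1)) ^ n) := by
        refine mul_le_mul_of_nonneg_left (mul_le_mul_of_nonneg_left ?_ hc) (by positivity)
        refine pow_le_pow_left₀ (by positivity) ?_ n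
        push_cast
        linarith
      _ = _ := by rw [mul_pow (3 : ℝ)]; ring
  exact le_of_mul_le_mul_right h7 (by positivity)

/-- A non-zero stable subspace of a module of growth type contains a simple submodule. -/
theorem WMod.exists_simple (W : WMod σ L) (hG : W.Growth) (N : Submodule ℂ L)
    (hN : W.Stable N) (hN0 : N ≠ ⊥) : ∃ S, W.SimpleSub S ∧ S ≤ N := by
  by_contra hno
  push Not at hno
  have hstep : ∀ A : {A : Submodule ℂ L // W.Stable A ∧ A ≠ ⊥ ∧ A ≤ N},
      ∃ B : {A : Submodule ℂ L // W.Stable A ∧ A ≠ ⊥ ∧ A ≤ N}, B.1 < A.1 := by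
    rintro ⟨A, hA, hA0, hAN⟩
    by_contra hB
    push Not at hB
    refine hno A ⟨hA, hA0, fun B hBs hBA => ?_⟩ hAN
    by_contra h
    push Not at h
    exact hB ⟨B, hBs, h.1, hBA.trans hAN⟩ (lt_of_le_of_ne hBA h.2)
  choose F hF using hstep
  let f : ℕ → {A : Submodule ℂ L // W.Stable A ∧ A ≠ ⊥ ∧ A ≤ N} :=
    fun k => F^[k] ⟨N, hN, hN0, le_rfl⟩
  have hf : ∀ k, (f (k + 1)).1 < (f k).1 := by
    intro k
    have : f (k + 1) = F (f k) := Function.iterate_succ_apply' F k _
    rw [this]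
    exact hF _
  obtain ⟨G, c, hG⟩ := hG
  obtain ⟨r, hr⟩ := exists_nat_gt
    ((2 * (Fintype.card σ : ℝ)) ^ Fintype.card σ * (c * 3 ^ Fintype.card σ))
  refine absurd (W.chain_bound G c hG r (fun j => (f (r - j)).1) (fun j => (f (r - j)).2.1)
    (fun j hj => ?_)) (not_le.2 hr)
  have h1 : r - j = (r - (j + 1)) + 1 := by omega
  simp only [h1]
  exact hf _

end Pool.DM
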