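import Pool.Agent.Work.MP_c20ce7_dm90.T2

set_option autoImplicit false

/-! Constructing modules over the Weyl algebra from commuting operators. -/

open MvPolynomial

noncomputable section

namespace Pool.DM

variable {σ : Type} {L : Type} [AddCommGroup L] [Module ℂ L]

/-- The algebra homomorphism of a commuting family. -/
theorem exists_hom (A : σ → Module.End ℂ L) (h : ∀ i j, A i * A j = A j * A i) :
    ∃ φ : MvPolynomial σ ℂ →ₐ[ℂ] Module.End ℂ L, ∀ i, φ (X i) = A i := by
  letI : CommRing (Algebra.adjoin ℂ (Set.range A)) :=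
    Algebra.adjoinCommRingOfComm ℂ (by
      rintro _ ⟨i, rfl⟩ _ ⟨j, rfl⟩
      exact h i j)
  refine ⟨(Algebra.adjoin ℂ (Set.range A)).val.comp
    (aeval fun i => (⟨A i, Algebra.subset_adjoin ⟨i, rfl⟩⟩ :
      Algebra.adjoin ℂ (Set.range A))), fun i => ?_⟩
  rw [AlgHom.comp_apply, aeval_X]
  rfl

/-- The algebra homomorphism of a commuting family. -/
def homOf (A : σ → Module.End ℂ L) (h : ∀ i j, A i * A j = A j * A i) :
    MvPolynomial σ ℂ →ₐ[ℂ] Module.End ℂ L := (exists_hom A h).choose

@[simp] theorem homOf_X (A : σ → Module.End ℂ L) (h : ∀ i j, A i * A j = A j * A i) (i : σ) :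
    homOf A h (X i) = A i := (exists_hom A h).choose_spec i

/-- A `WMod` from commuting positions and commuting momenta. -/
def WMod.mk' [DecidableEq σ] (A D : σ → Module.End ℂ L) (hA : ∀ i j, A i * A j = A j * A i)
    (hD : ∀ i j, D i * D j = D j * D i)
    (hc : ∀ i j, D i * A j - A j * D i = if i = j then 1 else 0) : WMod σ L where
  x := homOf A hA
  d := homOf D hD
  comm := by
    intro i j
    rw [homOf_X, homOf_X]
    exact hc i j

end Pool.DM
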