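import Pool.Agent.Work.MP_c20ce7_dm90.T4
import Pool.Agent.Work.MP_c20ce7_dm90.T5a

set_option autoImplicit false

/-! Localisation of modules over the Weyl algebra. -/

open MvPolynomial

noncomputable section

namespace Pool.DM

variable {σ : Type} [Fintype σ] [DecidableEq σ] {L : Type} [AddCommGroup L] [Module ℂ L]

/-- `L` as a module over the polynomials. -/
def WMod.M (_W : WMod σ L) : Type := L

@[reducible] def instAddCommGroupM (W : WMod σ L) : AddCommGroup W.M := inferInstanceAs (AddCommGroup L)

attribute [local instance] instAddCommGroupM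

@[reducible] def instModuleMvPolynomialComplexM (W : WMod σ L) : Module (MvPolynomial σ ℂ) W.M :=
  Module.compHom L (W.x : MvPolynomial σ ℂ →+* Module.End ℂ L)

attribute [local instance] instModuleMvPolynomialComplexM

theorem WMod.M_smul (W : WMod σ L) (f : MvPolynomial σ ℂ) (u : W.M) :
    f • u = (W.x f : L → L) u := rfl

/-- The derivation `d_i` on `W.M`. -/
def WMod.der (W : WMod σ L) (i : σ) : W.M →+ W.M := (W.d (X i)).toAddMonoidHom

theorem WMod.der_smul (W : WMod σ L) (i : σ) (f : MvPolynomial σ ℂ) (u : W.M) :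
    W.der i (f • u) = f • W.der i u + pderiv i f • u := by
  have h := LinearMap.congr_fun (W.d_mul_x i f) u
  exact h

theorem WMod.der_comm (W : WMod σ L) (i j : σ) (u : W.M) :
    W.der i (W.der j u) = W.der j (W.der i u) := by
  have h : W.d (X i) * W.d (X j) = W.d (X j) * W.d (X i) := by
    rw [← map_mul, mul_comm, map_mul]
  exact LinearMap.congr_fun h u

/-- The localisation of `L` at a multiplicative set of functions. -/
abbrev WMod.Loc (W : WMod σ L) (S : Submonoid (MvPolynomial σ ℂ)) : Type :=
  LocalizedModule S W.M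

@[reducible] def instModuleComplexLoc (W : WMod σ L) (S : Submonoid (MvPolynomial σ ℂ)) : Module ℂ (W.Loc S) :=
  Module.compHom (W.Loc S) (C : ℂ →+* MvPolynomial σ ℂ)

attribute [local instance] instModuleComplexLoc

theorem WMod.loc_smul (W : WMod σ L) (S : Submonoid (MvPolynomial σ ℂ)) (c : ℂ) (v : W.Loc S) :
    c • v = (C c : MvPolynomial σ ℂ) • v := rfl

variable (W : WMod σ L) (S : Submonoid (MvPolynomial σ ℂ))

theorem locDer_wd (i : σ) (m m' : W.M) (a b c : MvPolynomial σ ℂ)
    (h0 : (a * c) • m = (a * b) • m') :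
    (a * a) • (c * c) • (b • W.der i m - pderiv i b • m) =
      (a * a) • (b * b) • (c • W.der i m' - pderiv i c • m') := by
  have h1 := congrArg (W.der i) h0
  rw [W.der_smul, W.der_smul, Derivation.leibniz, Derivation.leibniz] at h1
  simp only [smul_eq_mul] at h1
  linear_combination (norm := module)
    (a * b * c) • h1 - (a * c * pderiv i b + a * b * pderiv i c + b * c * pderiv i a) • h0

/-- The derivation on the localisation. -/
def WMod.locDer (i : σ) (v : W.Loc S) : W.Loc S :=
  LocalizedModule.liftOn v (fun p => LocalizedModule.mk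
    ((p.2 : MvPolynomial σ ℂ) • W.der i p.1 - pderiv i (p.2 : MvPolynomial σ ℂ) • p.1)
      (p.2 * p.2)) (by
    rintro ⟨m, s⟩ ⟨m', s'⟩ ⟨u, hu⟩
    rw [LocalizedModule.mk_eq]
    refine ⟨u * u, ?_⟩
    have h0 : ((u : MvPolynomial σ ℂ) * s') • m = ((u : MvPolynomial σ ℂ) * s) • m' := by
      simpa only [Submonoid.smul_def, smul_smul] using hu
    have h1 := locDer_wd W i m m' _ _ _ h0
    simpa only [Submonoid.smul_def, Submonoid.coe_mul] using h1)

theorem WMod.locDer_mk (i : σ) (m : W.M) (s : S) :
    W.locDer S i (LocalizedModule.mk m s) = LocalizedModule.mk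
      ((s : MvPolynomial σ ℂ) • W.der i m - pderiv i (s : MvPolynomial σ ℂ) • m) (s * s) :=
  rfl

theorem WMod.locDer_smul (i : σ) (f : MvPolynomial σ ℂ) (v : W.Loc S) :
    W.locDer S i (f • v) = f • W.locDer S i v + pderiv i f • v := by
  induction v using LocalizedModule.induction_on with
  | h m s =>
    rw [LocalizedModule.smul'_mk, W.locDer_mk, W.locDer_mk, LocalizedModule.smul'_mk,
      LocalizedModule.smul'_mk, ← LocalizedModule.mk_cancel_common_left s s (pderiv i f • m)]
    rw [LocalizedModule.mk_add_mk, ← LocalizedModule.mk_cancel_common_left (s * s) (s * s)]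
    congr 1
    rw [W.der_smul]
    simp only [Submonoid.smul_def, Submonoid.coe_mul]
    module

theorem WMod.locDer_mk_one (i : σ) (m : W.M) :
    W.locDer S i (LocalizedModule.mk m 1) = LocalizedModule.mk (W.der i m) 1 := by
  rw [W.locDer_mk]
  simp

/-- Elements of `S` act injectively. -/
theorem WMod.loc_inj (s : MvPolynomial σ ℂ) (hs : s ∈ S) {v w : W.Loc S}
    (h : s • v = s • w) : v = w := by
  have h1 := LocalizedModule.divBy_mul_by (M := W.M) (⟨s, hs⟩ : S) v
  have h2 := LocalizedModule.divBy_mul_by (M := W.M) (⟨s, hs⟩ : S) w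
  have h3 : (algebraMap (MvPolynomial σ ℂ) (Module.End (MvPolynomial σ ℂ) (W.Loc S)) s) v =
      (algebraMap (MvPolynomial σ ℂ) (Module.End (MvPolynomial σ ℂ) (W.Loc S)) s) w := h
  rw [← h1, ← h2]
  exact congrArg _ h3

/-- Every element is a fraction. -/
theorem WMod.loc_frac (v : W.Loc S) : ∃ s ∈ S, ∃ m : W.M,
    s • v = LocalizedModule.mk m 1 := by
  induction v using LocalizedModule.induction_on with
  | h m s =>
    refine ⟨s, s.2, m, ?_⟩
    rw [LocalizedModule.smul'_mk]
    exact LocalizedModule.mk_cancel s m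

theorem WMod.mk_one_add (m m' : W.M) : (LocalizedModule.mk (m + m') 1 : W.Loc S) =
    LocalizedModule.mk m 1 + LocalizedModule.mk m' 1 := by
  rw [LocalizedModule.mk_add_mk]
  simp

theorem WMod.locDer_add (i : σ) (v w : W.Loc S) :
    W.locDer S i (v + w) = W.locDer S i v + W.locDer S i w := by
  obtain ⟨s, hs, m, hm⟩ := W.loc_frac S v
  obtain ⟨t, ht, n, hn⟩ := W.loc_frac S w
  have hv : (s * t) • v = LocalizedModule.mk (t • m) 1 := by
    rw [mul_comm, mul_smul, hm, LocalizedModule.smul'_mk]
  have hw : (s * t) • w = LocalizedModule.mk (s • n) 1 := by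
    rw [mul_smul, hn, LocalizedModule.smul'_mk]
  apply W.loc_inj S (s * t) (S.mul_mem hs ht)
  have h1 := W.locDer_smul S i (s * t) (v + w)
  have h2 := W.locDer_smul S i (s * t) v
  have h3 := W.locDer_smul S i (s * t) w
  rw [smul_add, hv, hw, ← W.mk_one_add, W.locDer_mk_one, map_add, W.mk_one_add] at h1
  rw [hv, W.locDer_mk_one] at h2
  rw [hw, W.locDer_mk_one] at h3
  rw [h2, h3, smul_add] at h1
  rw [smul_add]
  linear_combination (norm := module) (-1 : MvPolynomial σ ℂ) • h1

/-- The derivation as a linear map. -/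
def WMod.locD (i : σ) : Module.End ℂ (W.Loc S) where
  toFun := W.locDer S i
  map_add' := W.locDer_add S i
  map_smul' := by
    intro c v
    rw [W.loc_smul, W.locDer_smul]
    simp [W.loc_smul]

theorem pderiv_swap {τ : Type} [DecidableEq τ] (i j : τ) (p : MvPolynomial τ ℂ) :
    pderiv i (pderiv j p) = pderiv j (pderiv i p) := by
  ext m
  rw [coeff_pderiv, coeff_pderiv, coeff_pderiv, coeff_pderiv]
  have h1 : m + Finsupp.single i 1 + Finsupp.single j 1 =
      m + Finsupp.single j 1 + Finsupp.single i 1 := by abel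
  rw [h1]
  by_cases h : i = j
  · subst h
    ring
  · simp only [Finsupp.add_apply, Finsupp.single_apply, h, Ne.symm h, if_false, add_zero]
    ring

theorem WMod.locD_comm (i j : σ) : W.locD S i * W.locD S j = W.locD S j * W.locD S i := by
  ext v
  obtain ⟨s, hs, m, hm⟩ := W.loc_frac S v
  apply W.loc_inj S s hs
  have e : ∀ (k : σ) (w : W.Loc S), W.locD S k w = W.locDer S k w := fun _ _ => rfl
  have hadd := W.locDer_add S
  have h1 : W.locDer S i (W.locDer S j (s • v)) = W.locDer S j (W.locDer S i (s • v)) := by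
    rw [hm, W.locDer_mk_one, W.locDer_mk_one, W.locDer_mk_one, W.locDer_mk_one, W.der_comm]
  rw [W.locDer_smul, W.locDer_smul, hadd, hadd, W.locDer_smul, W.locDer_smul, W.locDer_smul,
    W.locDer_smul] at h1
  have h2 : pderiv i (pderiv j s) = pderiv j (pderiv i s) := pderiv_swap i j s
  rw [h2] at h1
  rw [Module.End.mul_apply, Module.End.mul_apply, e, e, e, e]
  linear_combination (norm := module) (1 : MvPolynomial σ ℂ) • h1

/-- Multiplication by functions on the localisation. -/
def WMod.locX : MvPolynomial σ ℂ →ₐ[ℂ] Module.End ℂ (W.Loc S) where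
  toFun := fun f =>
    { toFun := fun v => f • v
      map_add' := fun v w => smul_add f v w
      map_smul' := fun c v => by
        rw [W.loc_smul, W.loc_smul, smul_smul, smul_smul, mul_comm]
        rfl }
  map_one' := by
    ext v
    simp
  map_mul' := fun f g => by
    ext v
    simp [mul_smul]
  map_zero' := by
    ext v
    simp
  map_add' := fun f g => by
    ext v
    simp [add_smul]
  commutes' := fun c => by
    ext v
    rfl

/-- The localisation as a module over the Weyl algebra. -/
def WMod.loc : WMod σ (W.Loc S) where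
  x := W.locX S
  d := homOf (W.locD S) (W.locD_comm S)
  comm := by
    intro i j
    rw [homOf_X]
    ext v
    rw [LinearMap.sub_apply, Module.End.mul_apply, Module.End.mul_apply]
    change W.locDer S i ((X j : MvPolynomial σ ℂ) • v) - (X j : MvPolynomial σ ℂ) •
      W.locDer S i v = _
    rw [W.locDer_smul, add_sub_cancel_left, pderiv_X]
    by_cases h : i = j
    · subst h
      simp
    · simp [h, Ne.symm h, Pi.single_apply]

theorem WMod.loc_x (f : MvPolynomial σ ℂ) (v : W.Loc S) : (W.loc S).x f v = f • v := rfl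

theorem WMod.loc_d (i : σ) (v : W.Loc S) : (W.loc S).d (X i) v = W.locDer S i v := by
  change homOf (W.locD S) (W.locD_comm S) (X i) v = _
  rw [homOf_X]
  rfl

/-- The canonical map. -/
def WMod.ι : L →ₗ[ℂ] W.Loc S where
  toFun := fun u => LocalizedModule.mk (u : W.M) 1
  map_add' := fun u v => W.mk_one_add S u v
  map_smul' := fun c u => by
    rw [RingHom.id_apply, W.loc_smul, LocalizedModule.smul'_mk]
    congr 1
    change c • u = W.x (C c) u
    rw [W.x_C]
    rfl

theorem WMod.ι_x (f : MvPolynomial σ ℂ) (u : L) :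
    W.ι S (W.x f u) = (W.loc S).x f (W.ι S u) := by
  rw [W.loc_x]
  exact (LocalizedModule.smul'_mk (M := W.M) f (u : L) (1 : S)).symm

theorem WMod.ι_d (i : σ) (u : L) :
    W.ι S (W.d (X i) u) = (W.loc S).d (X i) (W.ι S u) := by
  rw [W.loc_d]
  exact (W.locDer_mk_one S i u).symm

theorem WMod.ι_eq_zero (u : L) : W.ι S u = 0 ↔ ∃ s ∈ S, W.x s u = 0 := by
  have h : W.ι S u = 0 ↔ (LocalizedModule.mk (u : W.M) 1 : W.Loc S) =
      LocalizedModule.mk 0 1 := by
    rw [LocalizedModule.zero_mk]
    rfl
  rw [h, LocalizedModule.mk_eq]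
  constructor
  · rintro ⟨s, hs⟩
    refine ⟨s, s.2, ?_⟩
    rw [one_smul, one_smul, smul_zero] at hs
    exact hs
  · rintro ⟨s, hs, h⟩
    refine ⟨⟨s, hs⟩, ?_⟩
    rw [one_smul, one_smul, smul_zero]
    exact h

end Pool.DM
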